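import Pool.Agent.H295R2.MK.Defs

set_option autoImplicit false

/-! Task A5: `EE` as a sum of the weight. -/

namespace H408MKA5

open Finset Filter Topology MeasureTheory
open Pool.Agent.H306R2 H295MK

noncomputable section

/-- the region in terms of integers -/
theorem region {L : ℝ} (a : ℝ) (hL : 0 < L) {b : Fin 4 → ℕ} (hb : ∀ i, b i ≠ 0) :
    chE a (pos L b) = if ((b 0 : ℝ) ≤ Real.exp (a * L) ∧
      ((b 1 * b 2 : ℕ) : ℝ) ≤ Real.exp (a * L) ∧ ((b 1 * b 3 : ℕ) : ℝ) ≤ Real.exp (a * L))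
      then 1 else 0 := by
  have hp : ∀ i, (0 : ℝ) < b i := fun i => by exact_mod_cast Nat.pos_of_ne_zero (hb i)
  have h0 : Real.log (b 0) / L ≤ a ↔ (b 0 : ℝ) ≤ Real.exp (a * L) := by
    rw [div_le_iff₀ hL, Real.log_le_iff_le_exp (hp 0)]
  have h1 : ∀ i, (Real.log (b 1) / L + Real.log (b i) / L ≤ a ↔
      ((b 1 * b i : ℕ) : ℝ) ≤ Real.exp (a * L)) := by
    intro i
    rw [← add_div, ← Real.log_mul (hp 1).ne' (hp i).ne', div_le_iff₀ hL,
      Real.log_le_iff_le_exp (mul_pos (hp 1) (hp i))]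
    push_cast
    rfl
  unfold chE pos
  simp only [h0, h1]

/-- the summand of `cc` -/
def A (j : ℕ) (X : ℝ) (b : ℕ × ℕ) (r : ℕ) : ℝ :=
  if ((b.2 * r : ℕ) : ℝ) ≤ X then dv j (b.1 * r) * dv j (b.2 * r) / (r : ℝ) else 0

/-- the embedding -/
def psi (p : ((ℕ × ℕ) × ℕ) × ℕ) : Fin 4 → ℕ := ![p.1.1.1, p.1.1.2, p.1.2, p.2]

theorem psi_inj : Function.Injective psi := by
  intro p q h
  have h0 := congrFun h 0
  have h1 := congrFun h 1
  have h2 := congrFun h 2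
  have h3 := congrFun h 3
  simp only [psi, Matrix.cons_val_zero, Matrix.cons_val_one, Matrix.cons_val] at h0 h1 h2 h3
  obtain ⟨⟨⟨p1, p2⟩, p3⟩, p4⟩ := p
  obtain ⟨⟨⟨q1, q2⟩, q3⟩, q4⟩ := q
  simp_all

theorem term {L a : ℝ} (j : ℕ) (hL : 0 < L) (b : ℕ × ℕ) (r s : ℕ)
    (hb : b ∈ SP (Real.exp (a * L))) (hr : r ∈ Icc 1 ⌊Real.exp (a * L)⌋₊)
    (hs : s ∈ Icc 1 ⌊Real.exp (a * L)⌋₊) :
    W4 j (psi ((b, r), s)) * chE a (pos L (psi ((b, r), s))) =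
      A j (Real.exp (a * L)) b r * A j (Real.exp (a * L)) b s / ((b.1 : ℝ) * b.2) := by
  unfold SP at hb
  simp only [mem_filter, mem_product, mem_Icc] at hb hr hs
  obtain ⟨⟨⟨h1, h2⟩, h3, h4⟩, hc⟩ := hb
  have hX : (0 : ℝ) ≤ Real.exp (a * L) := (Real.exp_pos _).le
  have hb1 : (b.1 : ℝ) ≤ Real.exp (a * L) :=
    (Nat.le_floor_iff hX).mp h2
  have hne : ∀ i, psi ((b, r), s) i ≠ 0 := by
    intro i
    fin_cases i
    · show b.1 ≠ 0
      omega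
    · show b.2 ≠ 0
      omega
    · show r ≠ 0
      omega
    · show s ≠ 0
      omega
  rw [region a hL hne]
  have e0 : psi ((b, r), s) 0 = b.1 := rfl
  have e1 : psi ((b, r), s) 1 = b.2 := rfl
  have e2 : psi ((b, r), s) 2 = r := rfl
  have e3 : psi ((b, r), s) 3 = s := rfl
  unfold W4
  rw [e0, e1, e2, e3, if_pos ⟨hc, hne⟩]
  unfold A
  have q1 : (b.1 : ℝ) ≠ 0 := by
    have : b.1 ≠ 0 := by omega
    exact_mod_cast this
  have q2 : (b.2 : ℝ) ≠ 0 := by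
    have : b.2 ≠ 0 := by omega
    exact_mod_cast this
  have q3 : (r : ℝ) ≠ 0 := by
    have : r ≠ 0 := by omega
    exact_mod_cast this
  have q4 : (s : ℝ) ≠ 0 := by
    have : s ≠ 0 := by omega
    exact_mod_cast this
  by_cases c1 : ((b.2 * r : ℕ) : ℝ) ≤ Real.exp (a * L)
  · by_cases c2 : ((b.2 * s : ℕ) : ℝ) ≤ Real.exp (a * L)
    · rw [if_pos ⟨hb1, c1, c2⟩, if_pos c1, if_pos c2]
      field_simp
    · rw [if_neg (fun h => c2 h.2.2), if_neg c2]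
      simp
  · rw [if_neg (fun h => c1 h.2.1), if_neg c1]
    simp

/-- the summand vanishes outside -/
theorem outside {L a : ℝ} (j : ℕ) (hL : 0 < L) (b : Fin 4 → ℕ)
    (hb : b ∉ (((SP (Real.exp (a * L)) ×ˢ Icc 1 ⌊Real.exp (a * L)⌋₊) ×ˢ
      Icc 1 ⌊Real.exp (a * L)⌋₊).image psi)) :
    W4 j b * chE a (pos L b) = 0 := by
  by_contra hne
  apply hb
  have hw : Nat.Coprime (b 0) (b 1) ∧ ∀ i, b i ≠ 0 := by
    by_contra h
    unfold W4 at hne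
    rw [if_neg h, zero_mul] at hne
    exact hne rfl
  have hX : (0 : ℝ) ≤ Real.exp (a * L) := (Real.exp_pos _).le
  rw [region a hL hw.2] at hne
  have hreg : (b 0 : ℝ) ≤ Real.exp (a * L) ∧
      ((b 1 * b 2 : ℕ) : ℝ) ≤ Real.exp (a * L) ∧ ((b 1 * b 3 : ℕ) : ℝ) ≤ Real.exp (a * L) := by
    by_contra h
    rw [if_neg h, mul_zero] at hne
    exact hne rfl
  obtain ⟨g0, g1, g2⟩ := hreg
  have f0 := (Nat.le_floor_iff hX).mpr g0
  have f1 := (Nat.le_floor_iff hX).mpr g1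
  have f2 := (Nat.le_floor_iff hX).mpr g2
  have p0 := Nat.pos_of_ne_zero (hw.2 0)
  have p1 := Nat.pos_of_ne_zero (hw.2 1)
  have p2 := Nat.pos_of_ne_zero (hw.2 2)
  have p3 := Nat.pos_of_ne_zero (hw.2 3)
  rw [mem_image]
  refine ⟨(((b 0, b 1), b 2), b 3), ?_, ?_⟩
  · simp only [mem_product, SP, mem_filter, mem_Icc]
    refine ⟨⟨⟨⟨⟨p0, f0⟩, p1, ?_⟩, hw.1⟩, p2, ?_⟩, p3, ?_⟩
    · exact (Nat.le_mul_of_pos_right _ p2).trans f1
    · exact (Nat.le_mul_of_pos_left _ p1).trans f1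
    · exact (Nat.le_mul_of_pos_left _ p1).trans f2
  · funext i
    fin_cases i <;> rfl

theorem cc_sq (j : ℕ) (X : ℝ) (b : ℕ × ℕ) : cc j X b ^ 2 =
    ∑ r ∈ Icc 1 ⌊X⌋₊, ∑ s ∈ Icc 1 ⌊X⌋₊, A j X b r * A j X b s / ((b.1 : ℝ) * b.2) := by
  have h1 : cc j X b = (∑ r ∈ Icc 1 ⌊X⌋₊, A j X b r) / Real.sqrt ((b.1 : ℝ) * b.2) := rfl
  rw [h1, div_pow, Real.sq_sqrt (by positivity), sq, sum_mul_sum, sum_div]
  refine sum_congr rfl fun r _ => ?_
  rw [sum_div]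

/-- A5: `EE` as a sum of the weight -/
theorem eEsum_done : EEsum := by
  intro j L a _ hL _
  set X := Real.exp (a * L) with hX
  set S := ((SP X ×ˢ Icc 1 ⌊X⌋₊) ×ˢ Icc 1 ⌊X⌋₊).image psi with hS
  have hout : ∀ b : Fin 4 → ℕ, b ∉ S → W4 j b * chE a (pos L b) = 0 :=
    fun b hb => outside j hL b hb
  refine ⟨summable_of_ne_finset_zero (s := S) hout, ?_⟩
  rw [tsum_eq_sum (s := S) (fun {b} hb => hout b hb), hS, sum_image (fun x _ y _ h => psi_inj h),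
    sum_product, sum_product]
  unfold EE
  refine sum_congr rfl fun b hb => ?_
  rw [cc_sq]
  refine sum_congr rfl fun r hr => sum_congr rfl fun s hs => ?_
  exact (term j hL b r s hb hr hs).symm

end

end H408MKA5
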