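import Pool.Agent.H295R2.MK.Defs

set_option autoImplicit false

/-! Task V1: the volume for `EE`. -/

namespace H408MKV1

open Finset Filter Topology MeasureTheory
open Pool.Agent.H306R2 H295MK

noncomputable section

/-- Beta integral with natural exponents. -/
theorem beta_nat (a : ℝ) (p : ℕ) : ∀ n : ℕ, ∫ x in (0:ℝ)..a, x ^ p * (a - x) ^ n =
    a ^ (p + n + 1) * ((p.factorial : ℝ) * n.factorial / (p + n + 1).factorial) := by
  induction p with
  | zero =>
    intro n
    have h1 : ∫ x in (0:ℝ)..a, x ^ 0 * (a - x) ^ n = ∫ x in (0:ℝ)..a, x ^ n := by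
      simp only [pow_zero, one_mul]
      rw [intervalIntegral.integral_comp_sub_left (fun x => x ^ n) a]
      simp
    rw [h1, integral_pow]
    have h2 : ((0 + n + 1).factorial : ℝ) = (n + 1) * n.factorial := by
      rw [show 0 + n + 1 = n + 1 by ring, Nat.factorial_succ]; push_cast; ring
    have h3 : (n.factorial : ℝ) ≠ 0 := by positivity
    have h4 : (n : ℝ) + 1 ≠ 0 := by positivity
    rw [h2]
    simp only [Nat.factorial_zero, Nat.cast_one, zero_add, zero_pow (Nat.succ_ne_zero n), sub_zero]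
    field_simp
  | succ p ih =>
    intro n
    have hd : ∀ x ∈ Set.uIcc (0:ℝ) a, HasDerivAt (fun x : ℝ => x ^ (p + 1) * (a - x) ^ (n + 1))
        (((p : ℝ) + 1) * (x ^ p * (a - x) ^ (n + 1)) - ((n : ℝ) + 1) * (x ^ (p + 1) * (a - x) ^ n)) x := by
      intro x _
      have h1 : HasDerivAt (fun x : ℝ => x ^ (p + 1)) (((p : ℝ) + 1) * x ^ p) x := by
        have := hasDerivAt_pow (p + 1) x
        simpa using this
      have h2 : HasDerivAt (fun x : ℝ => (a - x) ^ (n + 1)) (((n : ℝ) + 1) * (a - x) ^ n * (-1)) x := by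
        have h3 : HasDerivAt (fun x : ℝ => a - x) (-1) x := by
          simpa using (hasDerivAt_id x).const_sub a
        have := h3.fun_pow (n + 1)
        simpa using this
      refine (h1.fun_mul h2).congr_deriv ?_
      ring
    have hi : IntervalIntegrable (fun x : ℝ =>
        ((p : ℝ) + 1) * (x ^ p * (a - x) ^ (n + 1)) - ((n : ℝ) + 1) * (x ^ (p + 1) * (a - x) ^ n))
        volume 0 a := by
      apply Continuous.intervalIntegrable; fun_prop
    have h1 := intervalIntegral.integral_eq_sub_of_hasDerivAt hd hi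
    have h2 : ∫ x in (0:ℝ)..a,
        ((p : ℝ) + 1) * (x ^ p * (a - x) ^ (n + 1)) - ((n : ℝ) + 1) * (x ^ (p + 1) * (a - x) ^ n) =
        ((p : ℝ) + 1) * (∫ x in (0:ℝ)..a, x ^ p * (a - x) ^ (n + 1)) -
          ((n : ℝ) + 1) * ∫ x in (0:ℝ)..a, x ^ (p + 1) * (a - x) ^ n := by
      rw [intervalIntegral.integral_sub, intervalIntegral.integral_const_mul,
        intervalIntegral.integral_const_mul]
      · apply Continuous.intervalIntegrable; fun_prop
      · apply Continuous.intervalIntegrable; fun_prop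
    rw [h2, ih (n + 1)] at h1
    have h3 : a - a = 0 := sub_self a
    rw [h3, zero_pow (Nat.succ_ne_zero n), zero_pow (Nat.succ_ne_zero p), mul_zero, zero_mul,
      sub_zero] at h1
    have h4 : (n : ℝ) + 1 ≠ 0 := by positivity
    have h5 : (∫ x in (0:ℝ)..a, x ^ (p + 1) * (a - x) ^ n) =
        ((p : ℝ) + 1) * (a ^ (p + (n + 1) + 1) *
          ((p.factorial : ℝ) * (n + 1).factorial / (p + (n + 1) + 1).factorial)) / ((n : ℝ) + 1) := by
      rw [eq_div_iff h4]
      linarith
    rw [h5, show p + 1 + n + 1 = p + (n + 1) + 1 by ring, Nat.factorial_succ p,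
      Nat.factorial_succ n]
    push_cast
    have h6 : ((p + (n + 1) + 1).factorial : ℝ) ≠ 0 := by positivity
    field_simp

/-- The Beta integral against the density. -/
theorem gd_beta {m : ℕ} (hm : 1 ≤ m) {a : ℝ} (ha : 0 < a) :
    ∫ x, gd (m : ℝ) x * (max (a - x) 0) ^ (2 * m) =
      a ^ (3 * m) * ((2 * m).factorial / (3 * m).factorial) := by
  obtain ⟨q, rfl⟩ : ∃ q, m = q + 1 := ⟨m - 1, by omega⟩
  have h1 : (fun x => gd ((q + 1 : ℕ) : ℝ) x * (max (a - x) 0) ^ (2 * (q + 1))) =
      (Set.Ioc 0 a).indicator (fun x => (q.factorial : ℝ)⁻¹ * (x ^ q * (a - x) ^ (2 * (q + 1)))) := by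
    funext x
    unfold gd
    have hG : Real.Gamma ((q + 1 : ℕ) : ℝ) = q.factorial := by
      have := Real.Gamma_nat_eq_factorial q
      push_cast
      exact this
    by_cases hx : x ∈ Set.Ioc 0 a
    · rw [Set.indicator_of_mem hx, if_pos hx.1, hG, max_eq_left (by linarith [hx.2])]
      have : ((q + 1 : ℕ) : ℝ) - 1 = (q : ℝ) := by push_cast; ring
      rw [this, Real.rpow_natCast]
      ring
    · rw [Set.indicator_of_notMem hx]
      rw [Set.mem_Ioc, not_and_or] at hx
      rcases hx with hx | hx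
      · rw [if_neg hx, zero_mul]
      · rw [max_eq_right (by linarith), zero_pow (by positivity), mul_zero]
  rw [h1, integral_indicator measurableSet_Ioc, integral_const_mul,
    ← intervalIntegral.integral_of_le ha.le, beta_nat a q (2 * (q + 1))]
  have h2 : q + 2 * (q + 1) + 1 = 3 * (q + 1) := by ring
  rw [h2]
  have h3 : (q.factorial : ℝ) ≠ 0 := by positivity
  field_simp

/-- the truncated density -/
def ge (m a x : ℝ) : ℝ := gd m x * ct a x

theorem Gd_le {m a : ℝ} (hm : 0 < m) (u : Fin 4 → ℝ) :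
    ‖Gd (fun _ : Fin 4 => m) u * chE a u‖ ≤ ∏ i, ge m a (u i) := by
  have h0 : 0 ≤ Gd (fun _ : Fin 4 => m) u := Gd_nonneg (fun _ => hm) u
  have hc : 0 ≤ chE a u := by unfold chE; split_ifs <;> norm_num
  rw [Real.norm_of_nonneg (mul_nonneg h0 hc)]
  have hr : 0 ≤ ∏ i, ge m a (u i) :=
    prod_nonneg fun i _ => mul_nonneg (gd_nonneg hm _) (ct_nonneg _ _)
  by_cases hE : u 0 ≤ a ∧ u 1 + u 2 ≤ a ∧ u 1 + u 3 ≤ a
  · unfold chE
    rw [if_pos hE, mul_one]
    by_cases hp : ∀ i, 0 < u i
    · unfold Gd ge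
      refine prod_le_prod (fun i _ => gd_nonneg hm _) fun i _ => ?_
      have hi : u i ≤ a := by
        obtain ⟨h1, h2, h3⟩ := hE
        have p0 := hp 0
        have p1 := hp 1
        have p2 := hp 2
        have p3 := hp 3
        fin_cases i
        · exact h1
        · show u 1 ≤ a
          linarith
        · show u 2 ≤ a
          linarith
        · show u 3 ≤ a
          linarith
      unfold ct
      rw [if_pos hi, mul_one]
    · push Not at hp
      obtain ⟨i, hi⟩ := hp
      have : Gd (fun _ : Fin 4 => m) u = 0 := by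
        unfold Gd
        apply prod_eq_zero (mem_univ i)
        unfold gd
        rw [if_neg (by linarith)]
      rw [this]
      exact hr
  · unfold chE
    rw [if_neg hE, mul_zero]
    exact hr

theorem chE_meas (a : ℝ) : Measurable (chE a) := by
  unfold chE
  refine Measurable.ite ?_ measurable_const measurable_const
  refine MeasurableSet.inter ?_ (MeasurableSet.inter ?_ ?_)
  · exact measurableSet_le (measurable_pi_apply 0) measurable_const
  · exact measurableSet_le ((measurable_pi_apply 1).add (measurable_pi_apply 2)) measurable_const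
  · exact measurableSet_le ((measurable_pi_apply 1).add (measurable_pi_apply 3)) measurable_const

theorem Gd_meas (m : ℝ) : Measurable (Gd (fun _ : Fin 4 => m)) := by
  unfold Gd
  exact Finset.measurable_prod _ fun i _ => (gd_meas m).comp (measurable_pi_apply i)

theorem int {m : ℝ} (a : ℝ) (hm : 0 < m) :
    Integrable (fun u : Fin 4 → ℝ => Gd (fun _ : Fin 4 => m) u * chE a u) := by
  have h1 : Integrable (fun u : Fin 4 → ℝ => ∏ i, ge m a (u i)) :=
    Integrable.fintype_prod fun _ => gd_ct_integrable hm a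
  refine h1.mono' ((Gd_meas m).mul (chE_meas a)).aestronglyMeasurable ?_
  exact Eventually.of_forall fun u => Gd_le hm u

theorem val {m : ℕ} (hm : 1 ≤ m) {a : ℝ} (ha : 0 < a) :
    ∫ u : Fin 4 → ℝ, Gd (fun _ : Fin 4 => (m : ℝ)) u * chE a u = a ^ (4 * m) * volE m := by
  have hm0 : (0 : ℝ) < m := by exact_mod_cast hm
  set F : (Fin 4 → ℝ) → ℝ := fun u => Gd (fun _ : Fin 4 => (m : ℝ)) u * chE a u with hF
  have hI : Integrable F := int a hm0
  have hp := volume_preserving_piFinSuccAbove (fun _ : Fin 4 => ℝ) 1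
  set e := MeasurableEquiv.piFinSuccAbove (fun _ : Fin 4 => ℝ) 1 with he
  have h1 := (hp.symm e).integral_comp' (g := F)
  have hint2 : Integrable (fun p : ℝ × (Fin 3 → ℝ) => F (e.symm p)) :=
    ((hp.symm e).integrable_comp_emb e.symm.measurableEmbedding (g := F)).mpr hI
  rw [← h1]
  rw [Measure.volume_eq_prod] at hint2 ⊢
  rw [integral_prod _ hint2]
  have hpt : ∀ (x : ℝ) (v : Fin 3 → ℝ), F (e.symm (x, v)) =
      gd m x * ∏ i, (fun (i : Fin 3) (y : ℝ) => gd m y * ct ((![a, a - x, a - x] : Fin 3 → ℝ) i) y) i (v i) := by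
    intro x v
    have e1 : (e.symm (x, v)) 1 = x := by
      rw [he, MeasurableEquiv.piFinSuccAbove_symm_apply]
      exact Fin.insertNth_apply_same (α := fun _ => ℝ) 1 x v
    have e0 : (e.symm (x, v)) 0 = v 0 := by
      rw [he, MeasurableEquiv.piFinSuccAbove_symm_apply]
      exact Fin.insertNth_apply_succAbove (α := fun _ => ℝ) 1 x v 0
    have e2 : (e.symm (x, v)) 2 = v 1 := by
      rw [he, MeasurableEquiv.piFinSuccAbove_symm_apply]
      exact Fin.insertNth_apply_succAbove (α := fun _ => ℝ) 1 x v 1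
    have e3 : (e.symm (x, v)) 3 = v 2 := by
      rw [he, MeasurableEquiv.piFinSuccAbove_symm_apply]
      exact Fin.insertNth_apply_succAbove (α := fun _ => ℝ) 1 x v 2
    have hc : chE a (e.symm (x, v)) = ct a (v 0) * ct (a - x) (v 1) * ct (a - x) (v 2) := by
      unfold chE ct
      rw [e0, e1, e2, e3]
      have q1 : (x + v 1 ≤ a) ↔ (v 1 ≤ a - x) := by constructor <;> intro h <;> linarith
      have q2 : (x + v 2 ≤ a) ↔ (v 2 ≤ a - x) := by constructor <;> intro h <;> linarith
      by_cases b0 : v 0 ≤ a <;> by_cases b1 : v 1 ≤ a - x <;> by_cases b2 : v 2 ≤ a - x <;>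
        simp [q1, q2, b0, b1, b2]
    have hg : Gd (fun _ : Fin 4 => (m : ℝ)) (e.symm (x, v)) =
        gd m (v 0) * gd m x * gd m (v 1) * gd m (v 2) := by
      unfold Gd
      rw [Fin.prod_univ_four, e0, e1, e2, e3]
    rw [hF]
    simp only
    rw [hc, hg, Fin.prod_univ_three]
    simp only [Matrix.cons_val_zero, Matrix.cons_val_one, Matrix.cons_val_two, Matrix.head_cons,
      Matrix.tail_cons]
    ring
  have hin : ∀ x : ℝ, ∫ v : Fin 3 → ℝ, F (e.symm (x, v)) =
      (a ^ m / (m.factorial : ℝ) ^ 3) * (gd m x * (max (a - x) 0) ^ (2 * m)) := by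
    intro x
    simp only [hpt]
    rw [integral_const_mul, integral_fintype_prod_volume_eq_prod
      (fun (i : Fin 3) (y : ℝ) => gd m y * ct ((![a, a - x, a - x] : Fin 3 → ℝ) i) y),
      Fin.prod_univ_three]
    simp only [gd_ct_integral hm0]
    simp only [Matrix.cons_val_zero, Matrix.cons_val_one, Matrix.cons_val_two, Matrix.head_cons,
      Matrix.tail_cons]
    rw [Real.Gamma_nat_eq_factorial, max_eq_left ha.le]
    simp only [Real.rpow_natCast]
    ring
  simp only [hin]
  rw [integral_const_mul, gd_beta hm ha]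
  unfold volE
  have h3 : (m.factorial : ℝ) ≠ 0 := by positivity
  have h4 : ((3 * m).factorial : ℝ) ≠ 0 := by positivity
  have h5 : a ^ (4 * m) = a ^ m * a ^ (3 * m) := by rw [← pow_add]; congr 1; ring
  rw [h5]
  field_simp

/-- V1: the volume for `EE` -/
theorem volE_done : VolE := by
  intro j a hj ha
  have hm : 1 ≤ j ^ 2 := Nat.one_le_pow _ _ hj
  have hm0 : (0 : ℝ) < ((j ^ 2 : ℕ) : ℝ) := by exact_mod_cast hm
  have he : m4 j = fun _ : Fin 4 => ((j ^ 2 : ℕ) : ℝ) := by
    funext i; unfold m4; push_cast; rfl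
  rw [he]
  exact ⟨int a hm0, val hm ha⟩

end

end H408MKV1
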